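import Pool.Agent.W564.SC.Defs

/-!
# SC-PSI: a smooth family of diffeomorphisms which are translations near a point
-/
set_option autoImplicit false

open scoped Manifold ContDiff Topology NNReal
open Set Filter

universe u

namespace Pool.Agent.W782.SC

open Pool.Agent.H718R2.G Pool.Agent.W564.SC

/-- smooth perturbations of the identity by a `1/2`-Lipschitz map are diffeomorphisms
(after `K5a.perturb`). -/
theorem perturb {E : Type*} [NormedAddCommGroup E] [NormedSpace ℝ E] [CompleteSpace E]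
    (g : E → E) (hg : ContDiff ℝ ∞ g) {K : ℝ≥0} (hK : K ≤ 1 / 2)
    (hl : LipschitzWith K g) :
    ∃ F : E ≃ₜ E, ContDiff ℝ ∞ F ∧ ContDiff ℝ ∞ F.symm ∧ ∀ v, F v = v + g v := by
  set f : E → E := fun v => v + g v with hf
  have hfs : ContDiff ℝ ∞ f := contDiff_id.add hg
  have hA : ApproximatesLinearOn f ((ContinuousLinearEquiv.refl ℝ E : E ≃L[ℝ] E) :
      E →L[ℝ] E) univ K := by
    intro x _ y _
    have : f x - f y - ((ContinuousLinearEquiv.refl ℝ E : E ≃L[ℝ] E) :
        E →L[ℝ] E) (x - y) = g x - g y := by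
      simp only [hf, ContinuousLinearEquiv.coe_coe, ContinuousLinearEquiv.coe_refl']
      simp only [id]
      abel
    rw [this]
    exact hl.norm_sub_le x y
  have hc : Subsingleton E ∨ K <
      ‖(((ContinuousLinearEquiv.refl ℝ E : E ≃L[ℝ] E).symm : E ≃L[ℝ] E) :
        E →L[ℝ] E)‖₊⁻¹ := by
    rcases subsingleton_or_nontrivial E with h | h
    · exact Or.inl h
    · right
      have h1 : ‖(((ContinuousLinearEquiv.refl ℝ E : E ≃L[ℝ] E).symm : E ≃L[ℝ] E) :
          E →L[ℝ] E)‖₊ = 1 := by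
        have : (((ContinuousLinearEquiv.refl ℝ E : E ≃L[ℝ] E).symm : E ≃L[ℝ] E) :
            E →L[ℝ] E) = ContinuousLinearMap.id ℝ E := rfl
        rw [this]
        apply NNReal.coe_injective
        rw [coe_nnnorm]
        exact ContinuousLinearMap.norm_id
      rw [h1, inv_one]
      refine lt_of_le_of_lt hK ?_
      rw [div_lt_one (by norm_num)]
      norm_num
  let H : E ≃ₜ E := hA.toHomeomorph f hc
  have hH : ⇑H = f := rfl
  have hD : ∀ a : E, ∃ e : E ≃L[ℝ] E, HasFDerivAt f (e : E →L[ℝ] E) a := by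
    intro a
    have hga : HasFDerivAt g (fderiv ℝ g a) a :=
      (hg.differentiable (by simp)).differentiableAt.hasFDerivAt
    have hn : ‖fderiv ℝ g a‖ ≤ 1 / 2 := by
      have h1 := norm_fderiv_le_of_lipschitz ℝ hl (x₀ := a)
      refine h1.trans ?_
      have : (K : ℝ) ≤ ((1 / 2 : ℝ≥0) : ℝ) := by exact_mod_cast hK
      simpa using this
    have hn' : ‖-fderiv ℝ g a‖ < 1 := by
      rw [norm_neg]
      linarith
    refine ⟨ContinuousLinearEquiv.unitsEquiv ℝ E (Units.oneSub (-fderiv ℝ g a) hn'), ?_⟩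
    have h1 : HasFDerivAt f (ContinuousLinearMap.id ℝ E + fderiv ℝ g a) a :=
      (hasFDerivAt_id a).add hga
    have h2 : ((ContinuousLinearEquiv.unitsEquiv ℝ E (Units.oneSub (-fderiv ℝ g a) hn') :
        E ≃L[ℝ] E) : E →L[ℝ] E) = ContinuousLinearMap.id ℝ E + fderiv ℝ g a := by
      apply ContinuousLinearMap.ext
      intro v
      change ((Units.oneSub (-fderiv ℝ g a) hn' : (E →L[ℝ] E)ˣ) : E →L[ℝ] E) v = _
      rw [Units.val_oneSub, sub_neg_eq_add]
      rfl
    rw [h2]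
    exact h1
  choose e he using hD
  exact ⟨H, hfs, Homeomorph.contDiff_symm H (f₀' := e) he hfs, fun v => rfl⟩

/-- The family in `ℝⁿ`. -/
theorem local_family (n : ℕ) : ∃ (F F' : V n × V n → V n) (κ : ℝ), 0 < κ ∧ κ ≤ 1 / 2 ∧
    ContDiff ℝ ∞ F ∧ ContDiff ℝ ∞ F' ∧ (∀ x v, F' (x, F (x, v)) = v) ∧
    (∀ x v, F (x, F' (x, v)) = v) ∧
    (∀ x v, v ∉ Metric.closedBall (0 : V n) (1 / 2) → F (x, v) = v) ∧
    (∀ x v, v ∉ Metric.closedBall (0 : V n) (1 / 2) → F' (x, v) = v) ∧
    (∀ v, F (0, v) = v) ∧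
    ∀ x v, ‖x‖ < κ → ‖v‖ < 1 / 4 → F (x, v) = v + x := by
  let β : ContDiffBump (0 : V n) := ⟨1 / 4, 1 / 2, by norm_num, by norm_num⟩
  have hβs : ContDiff ℝ ∞ (β : V n → ℝ) := β.contDiff
  obtain ⟨C, hC⟩ := ContDiff.lipschitzWith_of_hasCompactSupport (𝕂 := ℝ) (n := ∞)
    β.hasCompactSupport hβs (by simp)
  set c : ℝ := 1 / (8 * (C + 1)) with hc
  have hC0 : (0 : ℝ) ≤ C := C.coe_nonneg
  have hc0 : 0 < c := by rw [hc]; positivity
  have hc1 : c ≤ 1 / 8 := by
    rw [hc, div_le_div_iff₀ (by positivity) (by norm_num)]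
    linarith
  have hcC : 2 * c * C ≤ 1 / 4 := by
    rw [hc]
    have : 2 * (1 / (8 * ((C : ℝ) + 1))) * C = C / (4 * (C + 1)) := by
      field_simp
      ring
    rw [this, div_le_div_iff₀ (by positivity) (by norm_num)]
    nlinarith
  let γ : ContDiffBump (0 : V n) := ⟨c, 2 * c, hc0, by linarith⟩
  have hγs : ContDiff ℝ ∞ (γ : V n → ℝ) := γ.contDiff
  set η : V n → V n := fun x => γ x • x with hη
  have hηs : ContDiff ℝ ∞ η := hγs.smul contDiff_id
  have hηc : HasCompactSupport η := γ.hasCompactSupport.smul_right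
  obtain ⟨L, hL⟩ := ContDiff.lipschitzWith_of_hasCompactSupport (𝕂 := ℝ) (n := ∞)
    hηc hηs (by simp)
  have hL0 : (0 : ℝ) ≤ L := L.coe_nonneg
  have hηb : ∀ x, ‖η x‖ ≤ 2 * c := by
    intro x
    by_cases hx : 2 * c ≤ ‖x‖
    · have h0 : γ x = 0 := by
        apply γ.zero_of_le_dist
        rw [dist_zero_right]
        exact hx
      rw [hη]
      simp only
      rw [h0, zero_smul, norm_zero]
      positivity
    · rw [hη]
      simp only
      rw [norm_smul, Real.norm_eq_abs, abs_of_nonneg γ.nonneg]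
      calc γ x * ‖x‖ ≤ 1 * (2 * c) := mul_le_mul γ.le_one (not_le.1 hx).le (norm_nonneg _)
            zero_le_one
        _ = 2 * c := one_mul _
  have hηx : ∀ x, ‖x‖ < c → η x = x := by
    intro x hx
    rw [hη]
    simp only
    rw [γ.one_of_mem_closedBall, one_smul]
    rw [Metric.mem_closedBall, dist_zero_right]
    exact hx.le
  set t : ℝ := 1 / (4 * (L + 1)) with ht
  have ht0 : 0 < t := by rw [ht]; positivity
  have htL : L * t ≤ 1 / 4 := by
    rw [ht]
    have : (L : ℝ) * (1 / (4 * ((L : ℝ) + 1))) = L / (4 * (L + 1)) := by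
      field_simp
    rw [this, div_le_div_iff₀ (by positivity) (by norm_num)]
    nlinarith
  set g : V n × V n → V n × V n := fun p => (0, β p.2 • η (t • p.1)) with hg
  have hgs : ContDiff ℝ ∞ g := by
    refine contDiff_const.prodMk ?_
    exact (hβs.comp contDiff_snd).smul (hηs.comp (contDiff_fst.const_smul t))
  have hgl : LipschitzWith (1 / 2) g := by
    refine LipschitzWith.of_dist_le_mul fun p p' => ?_
    have h1 : dist (g p) (g p') = ‖β p.2 • η (t • p.1) - β p'.2 • η (t • p'.1)‖ := by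
      rw [Prod.dist_eq, hg]
      simp only [dist_self]
      rw [max_eq_right dist_nonneg, dist_eq_norm]
    have h2 : β p.2 • η (t • p.1) - β p'.2 • η (t • p'.1) =
        (β p.2 - β p'.2) • η (t • p.1) + β p'.2 • (η (t • p.1) - η (t • p'.1)) := by
      rw [sub_smul, smul_sub]
      abel
    have h3 : ‖(β p.2 - β p'.2) • η (t • p.1)‖ ≤ 1 / 4 * dist p p' := by
      rw [norm_smul]
      have h4 := hC.norm_sub_le p.2 p'.2
      have h5 : ‖p.2 - p'.2‖ ≤ dist p p' := by
        rw [← dist_eq_norm, Prod.dist_eq]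
        exact le_max_right _ _
      calc ‖β p.2 - β p'.2‖ * ‖η (t • p.1)‖ ≤ (C * ‖p.2 - p'.2‖) * (2 * c) :=
            mul_le_mul h4 (hηb _) (norm_nonneg _) (by positivity)
        _ = (2 * c * C) * ‖p.2 - p'.2‖ := by ring
        _ ≤ 1 / 4 * dist p p' := mul_le_mul hcC h5 (norm_nonneg _) (by norm_num)
    have h6 : ‖β p'.2 • (η (t • p.1) - η (t • p'.1))‖ ≤ 1 / 4 * dist p p' := by
      rw [norm_smul, Real.norm_eq_abs, abs_of_nonneg β.nonneg]
      have h4 := hL.norm_sub_le (t • p.1) (t • p'.1)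
      have h5 : ‖p.1 - p'.1‖ ≤ dist p p' := by
        rw [← dist_eq_norm, Prod.dist_eq]
        exact le_max_left _ _
      have h7 : ‖t • p.1 - t • p'.1‖ = t * ‖p.1 - p'.1‖ := by
        rw [← smul_sub, norm_smul, Real.norm_eq_abs, abs_of_pos ht0]
      rw [h7] at h4
      calc β p'.2 * ‖η (t • p.1) - η (t • p'.1)‖ ≤ 1 * (L * (t * ‖p.1 - p'.1‖)) :=
            mul_le_mul β.le_one h4 (norm_nonneg _) zero_le_one
        _ = (L * t) * ‖p.1 - p'.1‖ := by ring
        _ ≤ 1 / 4 * dist p p' := mul_le_mul htL h5 (norm_nonneg _) (by norm_num)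
    rw [h1, h2]
    have h8 : (((1 / 2 : ℝ≥0)) : ℝ) = 1 / 2 := by simp
    rw [h8]
    refine (norm_add_le _ _).trans ?_
    linarith
  obtain ⟨H, hH1, hH2, hH3⟩ := perturb g hgs le_rfl hgl
  have hH : ∀ a v, H (a, v) = (a, v + β v • η (t • a)) := by
    intro a v
    rw [hH3, hg]
    simp
  have hHs1 : ∀ a v, (H.symm (a, v)).1 = a := by
    intro a v
    have h1 := H.apply_symm_apply (a, v)
    have h2 : H (H.symm (a, v)) = H ((H.symm (a, v)).1, (H.symm (a, v)).2) := rfl
    rw [h2, hH] at h1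
    exact congrArg Prod.fst h1
  set F : V n × V n → V n := fun q => q.2 + β q.2 • η q.1 with hF
  set F' : V n × V n → V n := fun q => (H.symm (t⁻¹ • q.1, q.2)).2 with hF'
  have hHF : ∀ x v, H (t⁻¹ • x, v) = (t⁻¹ • x, F (x, v)) := by
    intro x v
    have e : t • t⁻¹ • x = x := smul_inv_smul₀ ht0.ne' x
    rw [hH, e]
  have hinv1 : ∀ x v, F' (x, F (x, v)) = v := by
    intro x v
    have h1 : F' (x, F (x, v)) = (H.symm (t⁻¹ • x, F (x, v))).2 := rfl
    rw [h1, ← hHF, H.symm_apply_apply]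
  have hinv2 : ∀ x v, F (x, F' (x, v)) = v := by
    intro x v
    have h1 := H.apply_symm_apply (t⁻¹ • x, v)
    have h2 : H.symm (t⁻¹ • x, v) = (t⁻¹ • x, F' (x, v)) := Prod.ext (hHs1 _ _) rfl
    rw [h2, hHF] at h1
    exact congrArg Prod.snd h1
  have hout : ∀ x v, v ∉ Metric.closedBall (0 : V n) (1 / 2) → F (x, v) = v := by
    intro x v hv
    have h0 : β v = 0 := by
      apply β.zero_of_le_dist
      have : 1 / 2 < dist v 0 := by
        by_contra h
        exact hv (Metric.mem_closedBall.mpr (not_lt.mp h))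
      exact this.le
    rw [hF]
    simp only
    rw [h0, zero_smul, add_zero]
  refine ⟨F, F', c, hc0, by linarith, ?_, ?_, hinv1, hinv2, hout, ?_, ?_, ?_⟩
  · exact contDiff_snd.add ((hβs.comp contDiff_snd).smul (hηs.comp contDiff_fst))
  · exact contDiff_snd.comp (hH2.comp ((contDiff_fst.const_smul t⁻¹).prodMk contDiff_snd))
  · intro x v hv
    have h1 := hinv1 x v
    rw [hout x v hv] at h1
    exact h1
  · intro v
    have h0 : η 0 = 0 := by rw [hη]; simp
    rw [hF]
    simp only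
    rw [h0, smul_zero, add_zero]
  · intro x v hx hv
    rw [hF]
    simp only
    rw [hηx x hx, β.one_of_mem_closedBall, one_smul]
    rw [Metric.mem_closedBall, dist_zero_right]
    exact hv.le

open Classical in
/-- The transplanted family. -/
noncomputable def tr {n : ℕ} {N : Type*} [TopologicalSpace N]
    (χ : OpenPartialHomeomorph N (V n)) (F : V n × V n → V n) (x : V n) (y : N) : N :=
  if y ∈ χ.source then χ.symm (F (x, χ y)) else y

theorem tr_source {n : ℕ} {N : Type*} [TopologicalSpace N]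
    {χ : OpenPartialHomeomorph N (V n)} {F : V n × V n → V n} {x : V n} {y : N}
    (hy : y ∈ χ.source) : tr χ F x y = χ.symm (F (x, χ y)) := by
  unfold tr; rw [if_pos hy]

theorem tr_not_source {n : ℕ} {N : Type*} [TopologicalSpace N]
    {χ : OpenPartialHomeomorph N (V n)} {F : V n × V n → V n} {x : V n} {y : N}
    (hy : y ∉ χ.source) : tr χ F x y = y := by
  unfold tr; rw [if_neg hy]

theorem tr_id {n : ℕ} {N : Type*} [TopologicalSpace N]
    {χ : OpenPartialHomeomorph N (V n)} {A : Set (V n)} {F : V n × V n → V n}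
    (hid : ∀ x, ∀ v ∉ A, F (x, v) = v) {x : V n} {y : N} (hy : y ∉ χ.symm '' A) :
    tr χ F x y = y := by
  by_cases hs : y ∈ χ.source
  · rw [tr_source hs]
    have h1 : χ y ∉ A := fun h => hy ⟨χ y, h, χ.left_inv hs⟩
    rw [hid _ _ h1, χ.left_inv hs]
  · exact tr_not_source hs

theorem maps_target {n : ℕ} {N : Type*} [TopologicalSpace N]
    {χ : OpenPartialHomeomorph N (V n)} {A : Set (V n)} (hA : A ⊆ χ.target)
    {F F' : V n × V n → V n} (hinv : ∀ x v, F' (x, F (x, v)) = v)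
    (hid : ∀ x, ∀ v ∉ A, F (x, v) = v) {x v : V n} (hv : v ∈ χ.target) :
    F (x, v) ∈ χ.target := by
  by_cases h : v ∈ A
  · apply hA
    by_contra hcon
    have h1 := hid x _ hcon
    have h2 := hinv x (F (x, v))
    rw [h1, hinv] at h2
    exact hcon (by rw [← h2]; exact h)
  · rw [hid x v h]; exact hv

theorem tr_smooth {n : ℕ} {N : Type*} [TopologicalSpace N] [ChartedSpace (V n) N]
    [IsManifold (𝓡 n) ∞ N] {χ : OpenPartialHomeomorph N (V n)}
    (hχ : χ ∈ IsManifold.maximalAtlas (𝓡 n) ∞ N) {A : Set (V n)} (hA : A ⊆ χ.target)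
    (hcl : IsClosed (χ.symm '' A)) {F F' : V n × V n → V n}
    (hinv : ∀ x v, F' (x, F (x, v)) = v)
    (hF : ContDiff ℝ ∞ F) (hid : ∀ x, ∀ v ∉ A, F (x, v) = v) :
    ContMDiff ((𝓡 n).prod (𝓡 n)) (𝓡 n) ∞ (fun q : V n × N => tr χ F q.1 q.2) := by
  intro q
  by_cases hy : q.2 ∈ χ.source
  · have h1 : ContMDiffAt (𝓡 n) (𝓡 n) ∞ χ q.2 :=
      (contMDiffOn_of_mem_maximalAtlas hχ _ hy).contMDiffAt (χ.open_source.mem_nhds hy)
    have ht : F (q.1, χ q.2) ∈ χ.target := maps_target hA hinv hid (χ.map_source hy)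
    have h2 : ContMDiffAt (𝓡 n) (𝓡 n) ∞ χ.symm (F (q.1, χ q.2)) :=
      (contMDiffOn_symm_of_mem_maximalAtlas hχ _ ht).contMDiffAt (χ.open_target.mem_nhds ht)
    have h3 : ContMDiffAt ((𝓡 n).prod (𝓡 n)) (𝓡 n) ∞ (fun q : V n × N => χ q.2) q :=
      h1.comp q contMDiffAt_snd
    have h4 : ContMDiffAt ((𝓡 n).prod (𝓡 n)) 𝓘(ℝ, V n × V n) ∞
        (fun q : V n × N => (q.1, χ q.2)) q :=
      (contMDiffAt_fst).prodMk_space h3
    have h5 : ContMDiffAt ((𝓡 n).prod (𝓡 n)) (𝓡 n) ∞ (fun q : V n × N => F (q.1, χ q.2)) q :=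
      (hF.contMDiff.contMDiffAt).comp q h4
    have h6 : ContMDiffAt ((𝓡 n).prod (𝓡 n)) (𝓡 n) ∞
        (fun q : V n × N => χ.symm (F (q.1, χ q.2))) q := h2.comp q h5
    refine h6.congr_of_eventuallyEq ?_
    filter_upwards [continuous_snd.continuousAt.preimage_mem_nhds (χ.open_source.mem_nhds hy)]
      with p hp
    exact tr_source hp
  · have hy' : q.2 ∈ (χ.symm '' A)ᶜ := by
      rintro ⟨v, hv, h⟩
      exact hy (by rw [← h]; exact χ.map_target (hA hv))
    have h5 : ContMDiffAt ((𝓡 n).prod (𝓡 n)) (𝓡 n) ∞ (fun q : V n × N => q.2) q :=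
      contMDiffAt_snd
    refine h5.congr_of_eventuallyEq ?_
    filter_upwards [continuous_snd.continuousAt.preimage_mem_nhds
      (hcl.isOpen_compl.mem_nhds hy')] with p hp
    exact tr_id hid hp

theorem tr_inv {n : ℕ} {N : Type*} [TopologicalSpace N]
    {χ : OpenPartialHomeomorph N (V n)} {A : Set (V n)} (hA : A ⊆ χ.target)
    {F F' : V n × V n → V n} (hinv : ∀ x v, F' (x, F (x, v)) = v)
    (hid : ∀ x, ∀ v ∉ A, F (x, v) = v) (x : V n) (y : N) :
    tr χ F' x (tr χ F x y) = y := by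
  by_cases hy : y ∈ χ.source
  · have h1 : F (x, χ y) ∈ χ.target := maps_target hA hinv hid (χ.map_source hy)
    rw [tr_source hy, tr_source (χ.map_target h1), χ.right_inv h1, hinv, χ.left_inv hy]
  · rw [tr_not_source (F := F) hy, tr_not_source hy]

theorem psi : S_PSI.{u} := by
  intro n N _ _ _ _ r χ z hg
  obtain ⟨F, F', κ, hκ0, hκ1, hF, hF', hi, hi', ho, ho', h0, hm⟩ := local_family n
  have hA : Metric.closedBall (0 : V n) (1 / 2) ⊆ χ.target :=
    (Metric.closedBall_subset_closedBall (by norm_num)).trans hg.ball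
  have hcl : IsClosed (χ.symm '' Metric.closedBall (0 : V n) (1 / 2)) :=
    ((isCompact_closedBall _ _).image_of_continuousOn
      (χ.continuousOn_symm.mono hA)).isClosed
  have hs := tr_smooth hg.mem hA hcl hi hF ho
  have hs' := tr_smooth hg.mem hA hcl hi' hF' ho'
  have hr : ((r : ℕ∞) : WithTop ℕ∞) ≤ ∞ := by exact_mod_cast le_top
  have hs1 : ∀ x : V n, ContMDiff (𝓡 n) (𝓡 n) ∞ (tr χ F x) := by
    intro x
    exact hs.comp (contMDiff_const.prodMk contMDiff_id)
  have hs1' : ∀ x : V n, ContMDiff (𝓡 n) (𝓡 n) ∞ (tr χ F' x) := by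
    intro x
    exact hs'.comp (contMDiff_const.prodMk contMDiff_id)
  refine ⟨fun x => ⟨⟨tr χ F x, tr χ F' x, tr_inv hA hi ho x, tr_inv hA hi' ho' x⟩,
    (hs1 x).of_le hr, (hs1' x).of_le hr⟩, κ, hκ0, ?_, hs.of_le hr, hs'.of_le hr, ?_⟩
  · intro y
    change tr χ F 0 y = y
    by_cases hy : y ∈ χ.source
    · rw [tr_source hy, h0, χ.left_inv hy]
    · exact tr_not_source hy
  · intro x hx y hy hy4
    have h1 : tr χ F x y = χ.symm (χ y + x) := by rw [tr_source hy, hm x _ hx hy4]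
    have h2 : χ y + x ∈ χ.target := by
      rw [← hm x _ hx hy4]
      exact maps_target hA hi ho (χ.map_source hy)
    change tr χ F x y ∈ χ.source ∧ χ (tr χ F x y) = χ y + x
    rw [h1]
    exact ⟨χ.map_target h2, χ.right_inv h2⟩

end Pool.Agent.W782.SC
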